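import Pool.Agent.Y52.SJ.Stm2

/-!
# SJ CAP2: the square cylinder bounds the cylindrical capacity (helper550)
-/

set_option autoImplicit false

open Filter Topology Set

namespace Pool.Agent.Y550.SJ

open Pool.Agent.Y52.SJ

variable {n : ℕ}

/-- the standard form is nondegenerate -/
lemma std_nondeg {m : ℕ} {x : (Fin m → ℝ) × (Fin m → ℝ)} (h : ∀ y, std x y = 0) : x = 0 := by
  refine Prod.ext (funext fun i => ?_) (funext fun i => ?_)
  · have h1 := h (0, Pi.single i 1)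
    unfold std at h1
    rw [Finset.sum_eq_single i] at h1
    · simpa using h1
    · intro j _ hj
      simp [hj]
    · intro hi
      exact absurd (Finset.mem_univ i) hi
  · have h1 := h (Pi.single i 1, 0)
    unfold std at h1
    rw [Finset.sum_eq_single i] at h1
    · simpa using h1
    · intro j _ hj
      simp [hj]
    · intro hi
      exact absurd (Finset.mem_univ i) hi

/-- the map of the square cylinder to the round one -/
noncomputable def Phi (a b : ℝ → ℝ) (z : (Fin (n + 1) → ℝ) × (Fin (n + 1) → ℝ)) :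
    (Fin (n + 1) → ℝ) × (Fin (n + 1) → ℝ) :=
  (fun i => if i = 0 then a (z.1 0) else z.1 i, fun i => if i = 0 then z.2 0 * b (z.1 0) else z.2 i)

lemma Phi_contDiffAt {a b : ℝ → ℝ} {z : (Fin (n + 1) → ℝ) × (Fin (n + 1) → ℝ)}
    (ha : ContDiffAt ℝ ((⊤ : ℕ∞) : WithTop ℕ∞) a (z.1 0))
    (hb : ContDiffAt ℝ ((⊤ : ℕ∞) : WithTop ℕ∞) b (z.1 0)) :
    ContDiffAt ℝ ((⊤ : ℕ∞) : WithTop ℕ∞) (Phi a b) z := by
  have h1 : ∀ i : Fin (n + 1), ContDiff ℝ ((⊤ : ℕ∞) : WithTop ℕ∞)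
      (fun z : (Fin (n + 1) → ℝ) × (Fin (n + 1) → ℝ) => z.1 i) := fun i =>
    (contDiff_apply ℝ ℝ i).comp contDiff_fst
  have h2 : ∀ i : Fin (n + 1), ContDiff ℝ ((⊤ : ℕ∞) : WithTop ℕ∞)
      (fun z : (Fin (n + 1) → ℝ) × (Fin (n + 1) → ℝ) => z.2 i) := fun i =>
    (contDiff_apply ℝ ℝ i).comp contDiff_snd
  refine ContDiffAt.prodMk (contDiffAt_pi.2 fun i => ?_) (contDiffAt_pi.2 fun i => ?_)
  · by_cases hi : i = 0
    · simp only [hi, if_true]
      exact ContDiffAt.comp z ha (h1 0).contDiffAt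
    · simp only [hi, if_false]
      exact (h1 i).contDiffAt
  · by_cases hi : i = 0
    · simp only [hi, if_true]
      exact (h2 0).contDiffAt.mul (ContDiffAt.comp z hb (h1 0).contDiffAt)
    · simp only [hi, if_false]
      exact (h2 i).contDiffAt

/-- derivatives along lines of the four kinds of coordinates -/
lemma Phi_fderiv {a b : ℝ → ℝ} {a' b' : ℝ}
    {E : Type} [NormedAddCommGroup E] [NormedSpace ℝ E]
    (P : E →L[ℝ] ((Fin (n + 1) → ℝ) × (Fin (n + 1) → ℝ)))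
    (b₀ : (Fin (n + 1) → ℝ) × (Fin (n + 1) → ℝ)) (x u : E)
    (ha : HasDerivAt a a' ((b₀ + P x).1 0)) (hb : HasDerivAt b b' ((b₀ + P x).1 0))
    (hd : DifferentiableAt ℝ (fun x => Phi a b (b₀ + P x)) x) :
    fderiv ℝ (fun x => Phi a b (b₀ + P x)) x u =
      (fun i => if i = 0 then a' * (P u).1 0 else (P u).1 i,
        fun i => if i = 0 then (P u).2 0 * b ((b₀ + P x).1 0) +
          (b₀ + P x).2 0 * (b' * (P u).1 0) else (P u).2 i) := by
  have h0 : HasDerivAt (fun t : ℝ => Phi a b (b₀ + P (x + t • u)))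
      (fderiv ℝ (fun x => Phi a b (b₀ + P x)) x u) 0 :=
    hd.hasFDerivAt.hasLineDerivAt u
  have hl : HasDerivAt (fun t : ℝ => b₀ + P (x + t • u)) (P u) 0 := by
    have h1 : (fun t : ℝ => b₀ + P (x + t • u)) = fun t : ℝ => (b₀ + P x) + t • P u := by
      funext t
      rw [map_add, map_smul, add_assoc]
    rw [h1]
    simpa using ((hasDerivAt_id (0 : ℝ)).smul_const (P u)).const_add (b₀ + P x)
  have hl1 : ∀ i, HasDerivAt (fun t : ℝ => (b₀ + P (x + t • u)).1 i) ((P u).1 i) 0 := fun i =>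
    (hasDerivAt_pi.1 hl.fst) i
  have hl2 : ∀ i, HasDerivAt (fun t : ℝ => (b₀ + P (x + t • u)).2 i) ((P u).2 i) 0 := fun i =>
    (hasDerivAt_pi.1 hl.snd) i
  have e0 : x + (0 : ℝ) • u = x := by rw [zero_smul, add_zero]
  have ha' : HasDerivAt a a' ((b₀ + P (x + (0 : ℝ) • u)).1 0) := by rw [e0]; exact ha
  have hb' : HasDerivAt b b' ((b₀ + P (x + (0 : ℝ) • u)).1 0) := by rw [e0]; exact hb
  have k1 : ∀ i, HasDerivAt (fun t : ℝ => (Phi a b (b₀ + P (x + t • u))).1 i)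
      ((fderiv ℝ (fun x => Phi a b (b₀ + P x)) x u).1 i) 0 := fun i => (hasDerivAt_pi.1 h0.fst) i
  have k2 : ∀ i, HasDerivAt (fun t : ℝ => (Phi a b (b₀ + P (x + t • u))).2 i)
      ((fderiv ℝ (fun x => Phi a b (b₀ + P x)) x u).2 i) 0 := fun i => (hasDerivAt_pi.1 h0.snd) i
  refine Prod.ext (funext fun i => ?_) (funext fun i => ?_)
  · refine (k1 i).unique ?_
    by_cases hi : i = 0
    · simp only [Phi, hi, if_true]
      exact HasDerivAt.comp (0 : ℝ) ha' (hl1 0)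
    · simp only [Phi, hi, if_false]
      exact hl1 i
  · refine (k2 i).unique ?_
    by_cases hi : i = 0
    · simp only [Phi, hi, if_true]
      have h3 := (hl2 0).mul (HasDerivAt.comp (0 : ℝ) hb' (hl1 0))
      rw [e0] at h3
      have h4 : (b ∘ fun t : ℝ => (b₀ + P (x + t • u)).1 0) 0 = b ((b₀ + P x).1 0) := by
        show b ((b₀ + P (x + (0 : ℝ) • u)).1 0) = _
        rw [e0]
      rw [h4] at h3
      exact h3
    · simp only [Phi, hi, if_false]
      exact hl2 i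

/-- the embedding -/
lemma emb {a b : ℝ → ℝ} {l R : ℝ}
    (ha : ContDiffOn ℝ ((⊤ : ℕ∞) : WithTop ℕ∞) a (Ioo (-l) l))
    (hb : ContDiffOn ℝ ((⊤ : ℕ∞) : WithTop ℕ∞) b (Ioo (-l) l))
    (hinj : InjOn a (Ioo (-l) l)) (hb0 : ∀ q ∈ Ioo (-l) l, 0 < b q)
    (hd : ∀ q ∈ Ioo (-l) l, HasDerivAt a (b q)⁻¹ q)
    (hR : ∀ q ∈ Ioo (-l) l, a q ^ 2 + l ^ 2 * b q ^ 2 = R ^ 2)
    (K : Set ((Fin (n + 1) → ℝ) × (Fin (n + 1) → ℝ)))
    (P : ((Fin (n + 1) → ℝ) × (Fin (n + 1) → ℝ)) →L[ℝ] ((Fin (n + 1) → ℝ) × (Fin (n + 1) → ℝ)))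
    (b₀ : (Fin (n + 1) → ℝ) × (Fin (n + 1) → ℝ))
    (hP : ∀ x y, std (P x) (P y) = std x y)
    (hK : ∀ x ∈ K, (b₀ + P x).1 0 ∈ Ioo (-l) l ∧ (b₀ + P x).2 0 ∈ Ioo (-l) l) :
    SympEmb K (cyl n R) := by
  have hopen : ∀ q ∈ Ioo (-l) l, Ioo (-l) l ∈ 𝓝 q := fun q hq => isOpen_Ioo.mem_nhds hq
  have haff : ContDiff ℝ ((⊤ : ℕ∞) : WithTop ℕ∞) (fun x => b₀ + P x) :=
    contDiff_const.add P.contDiff
  have hsm : ∀ x ∈ K, ContDiffAt ℝ ((⊤ : ℕ∞) : WithTop ℕ∞) (fun x => Phi a b (b₀ + P x)) x := by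
    intro x hx
    have h1 := (hK x hx).1
    exact ContDiffAt.comp x (Phi_contDiffAt (ha.contDiffAt (hopen _ h1))
      (hb.contDiffAt (hopen _ h1))) haff.contDiffAt
  refine ⟨fun x => Phi a b (b₀ + P x), fun x hx => (hsm x hx).contDiffWithinAt, ?_, ?_, ?_⟩
  · intro x hx y hy hxy
    have h1 := congrArg Prod.fst hxy
    have h2 := congrArg Prod.snd hxy
    have h10 := congrFun h1 0
    have h20 := congrFun h2 0
    simp only [Phi, if_true] at h10 h20
    have h11 := hinj (hK x hx).1 (hK y hy).1 h10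
    rw [h11] at h20
    have h21 := mul_right_cancel₀ (hb0 _ (hK y hy).1).ne' h20
    have h3 : b₀ + P x = b₀ + P y := by
      refine Prod.ext (funext fun i => ?_) (funext fun i => ?_)
      · by_cases hi : i = 0
        · rw [hi, h11]
        · have h4 := congrFun h1 i
          simp only [Phi, hi, if_false] at h4
          exact h4
      · by_cases hi : i = 0
        · rw [hi, h21]
        · have h4 := congrFun h2 i
          simp only [Phi, hi, if_false] at h4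
          exact h4
    have h4 : P (x - y) = 0 := by
      rw [map_sub, sub_eq_zero]
      exact add_left_cancel h3
    have h5 : x - y = 0 := by
      refine std_nondeg fun z => ?_
      rw [← hP, h4]
      simp [std]
    exact sub_eq_zero.1 h5
  · intro x hx
    have h1 := (hK x hx).1
    have h2 := (hK x hx).2
    have h3 := hR _ h1
    have h4 := hb0 _ h1
    show (Phi a b (b₀ + P x)).1 0 ^ 2 + (Phi a b (b₀ + P x)).2 0 ^ 2 < R ^ 2
    simp only [Phi, if_true]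
    rw [← h3, mul_pow]
    have h5 : (b₀ + P x).2 0 ^ 2 < l ^ 2 := sq_lt_sq' h2.1 h2.2
    have h6 : 0 < b ((b₀ + P x).1 0) ^ 2 := by positivity
    nlinarith
  · intro x hx u v
    have h1 := (hK x hx).1
    have hdiff : DifferentiableAt ℝ (fun x => Phi a b (b₀ + P x)) x :=
      (hsm x hx).differentiableAt (by simp)
    have hbd : HasDerivAt b (deriv b ((b₀ + P x).1 0)) ((b₀ + P x).1 0) :=
      ((hb.contDiffAt (hopen _ h1)).differentiableAt (by simp)).hasDerivAt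
    rw [Phi_fderiv P b₀ x u (hd _ h1) hbd hdiff, Phi_fderiv P b₀ x v (hd _ h1) hbd hdiff, ← hP u v]
    unfold std
    refine Finset.sum_congr rfl fun i _ => ?_
    by_cases hi : i = 0
    · simp only [hi, if_true]
      have h4 := (hb0 _ h1).ne'
      field_simp
      ring
    · simp only [hi, if_false]

/-- the bound for the cylindrical capacity, with the maps of the square onto the disc given -/
lemma cap_le (hSQ : ∀ l R : ℝ, 0 < l → 0 < R → Real.pi * R ^ 2 = 4 * l ^ 2 → ∃ a b : ℝ → ℝ,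
      ContDiffOn ℝ ((⊤ : ℕ∞) : WithTop ℕ∞) a (Ioo (-l) l) ∧
      ContDiffOn ℝ ((⊤ : ℕ∞) : WithTop ℕ∞) b (Ioo (-l) l) ∧
      InjOn a (Ioo (-l) l) ∧ (∀ q ∈ Ioo (-l) l, 0 < b q) ∧
      (∀ q ∈ Ioo (-l) l, HasDerivAt a (b q)⁻¹ q) ∧
      ∀ q ∈ Ioo (-l) l, a q ^ 2 + l ^ 2 * b q ^ 2 = R ^ 2)
    (K : Set ((Fin (n + 1) → ℝ) × (Fin (n + 1) → ℝ)))
    (P : ((Fin (n + 1) → ℝ) × (Fin (n + 1) → ℝ)) →L[ℝ] ((Fin (n + 1) → ℝ) × (Fin (n + 1) → ℝ)))
    (b₀ : (Fin (n + 1) → ℝ) × (Fin (n + 1) → ℝ)) (s : ℝ) (hs : 0 ≤ s)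
    (hP : ∀ x y, std (P x) (P y) = std x y)
    (hK : ∀ x ∈ K, (b₀ + P x).1 0 ^ 2 ≤ s ∧ (b₀ + P x).2 0 ^ 2 ≤ s) :
    cylCapacity K ≤ ENNReal.ofReal (4 * s) := by
  have h1 : ∀ s' : ℝ, s < s' → cylCapacity K ≤ ENNReal.ofReal (4 * s') := by
    intro s' hs'
    have hs0 : 0 < s' := hs.trans_lt hs'
    have hl : 0 < √s' := Real.sqrt_pos.2 hs0
    have hl2 : √s' ^ 2 = s' := Real.sq_sqrt hs0.le
    have hR : 0 < √(4 * s' / Real.pi) := Real.sqrt_pos.2 (div_pos (by linarith) Real.pi_pos)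
    have hR2 : Real.pi * √(4 * s' / Real.pi) ^ 2 = 4 * s' := by
      rw [Real.sq_sqrt (div_pos (by linarith) Real.pi_pos).le, mul_div_cancel₀ _ Real.pi_pos.ne']
    obtain ⟨a, b, ha, hb, hi, hb0, hd, hab⟩ := hSQ _ _ hl hR (by rw [hR2, hl2])
    have hmem : ∀ t : ℝ, t ^ 2 ≤ s → t ∈ Ioo (-√s') (√s') := by
      intro t ht
      rw [mem_Ioo, ← abs_lt, ← abs_of_pos hl]
      exact sq_lt_sq.1 (by rw [hl2]; linarith)
    have he := emb ha hb hi hb0 hd hab K P b₀ hP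
      (fun x hx => ⟨hmem _ (hK x hx).1, hmem _ (hK x hx).2⟩)
    refine (iInf₂_le_of_le _ ⟨hR, he⟩ le_rfl).trans (le_of_eq ?_)
    rw [hR2]
  have h2 : Tendsto (fun s' : ℝ => ENNReal.ofReal (4 * s')) (𝓝[>] s)
      (𝓝 (ENNReal.ofReal (4 * s))) := by
    have h3 : Continuous fun s' : ℝ => ENNReal.ofReal (4 * s') :=
      ENNReal.continuous_ofReal.comp (continuous_const.mul continuous_id)
    exact (h3.tendsto s).mono_left nhdsWithin_le_nhds
  refine ge_of_tendsto h2 ?_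
  filter_upwards [self_mem_nhdsWithin] with s' hs'
  exact h1 s' hs'

theorem main : Pool.Agent.Y52.SJ.S_CAP2 := by
  intro hSQ n K P b s hs hP hK
  refine cap_le ?_ K P b s hs hP hK
  intro l R hl hR hlR
  obtain ⟨a, b, h1, h2, h3, h4⟩ := hSQ l R hl hR hlR.symm
  exact ⟨a, b, h1, h2, h3, fun q hq => (h4 q hq).1, fun q hq => (h4 q hq).2.1,
    fun q hq => (h4 q hq).2.2⟩

end Pool.Agent.Y550.SJ
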